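import Pool.Agent.H.MP_c41128_gt.Final2

/-!
# A cocompact Fuchsian subgroup of Thurston's lattice `Δ₅` that misses the collision divisor

The moduli space of flat cone metrics on the sphere with five cone points of curvature `4π/5` has
as its orbifold fundamental group the mapping class group of the sphere with five marked points,
which is generated by the four half twists exchanging the points `i` and `i+1`. The holonomy of
such a half twist is a complex reflection of angle `(1 - 2 · (2/5))π = π/5` fixing a complex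
geodesic that covers the stratum where the points `i` and `i+1` have collided. Half twists of
disjoint pairs commute and those of adjacent pairs satisfy the braid relation; up to conjugation
this determines the four reflections: unit vectors `root i` orthogonal to the four geodesics have
Hermitian products `0` for disjoint pairs and (after changing phases) the golden ratio for adjacent
pairs. `Delta5` is the group they generate; its image in `PU(2,1)` is `Δ₅`. The image of the
subgroup `PureDelta5`, generated by the conjugates of the full twists, is the lattice for labelled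
cone points. The complex hyperbolic plane is the set of negative lines of `herm`, and the preimage
of `D` in it is the union of the complex geodesics orthogonal to the vectors `g (root i)` with
`g ∈ Delta5`. (In the arithmetic description of `Δ₅` as the projective unitary group of `herm`
over `ℤ[ζ]`, `ζ = exp(2πi/5)`, it is the union of the complex geodesics orthogonal to the vectors
of norm one in `ℤ[ζ]³`; the theorem covers this description too.)
-/

namespace Pool.Agent.Results.MP_c41128_gt.ThurstonFuchsian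

open Matrix

/-- The golden ratio. -/
noncomputable def gold : ℝ := (1 + Real.sqrt 5) / 2

/-- The Hermitian form `x₀ȳ₀ + x₁ȳ₁ + ((1-√5)/2) x₂ȳ₂` on `ℂ³`, of signature `(2,1)`. -/
noncomputable def herm (x y : Fin 3 → ℂ) : ℂ :=
  x 0 * star (y 0) + x 1 * star (y 1) + (((1 - Real.sqrt 5) / 2 : ℝ) : ℂ) * (x 2 * star (y 2))

/-- Unit vectors orthogonal to the complex geodesics covering the loci where the cone points
`1,2`, respectively `2,3`, `3,4`, `4,5`, have collided. -/
noncomputable def root : Fin 4 → Fin 3 → ℂ :=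
  ![![1, 0, 0], ![(gold : ℂ), (gold : ℂ), (gold : ℂ) ^ 2], ![0, 1, 0],
    ![0, (gold : ℂ), (gold : ℂ)]]

/-- `g` is the holonomy of the `i`-th half twist: the complex reflection with eigenvalue
`exp(πi/5)` on `root i` and `1` on its orthogonal complement. -/
def IsHalfTwist (i : Fin 4) (g : GL (Fin 3) ℂ) : Prop :=
  ∀ x, g.val *ᵥ x =
    x - ((1 - Complex.exp (Real.pi * Complex.I / 5)) * herm x (root i)) • root i

/-- The group generated by the half twists; its image in `PU(2,1)` is `Δ₅`. -/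
def Delta5 : Subgroup (GL (Fin 3) ℂ) := Subgroup.closure {g | ∃ i, IsHalfTwist i g}

/-- The subgroup generated by the conjugates of the full twists (the squares of the half twists);
its image in `PU(2,1)` is the lattice for labelled cone points. -/
def PureDelta5 : Subgroup (GL (Fin 3) ℂ) :=
  Subgroup.closure {k | ∃ g ∈ Delta5, ∃ i, ∃ t, IsHalfTwist i t ∧ k = g * t ^ 2 * g⁻¹}

/-- The ring `ℤ[ζ]`, `ζ = exp(2πi/5)`. -/
noncomputable def Zzeta : Subring ℂ :=
  Subring.closure {Complex.exp (2 * Real.pi * Complex.I / 5)}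

/-- `F` is a cocompact `ℝ`-Fuchsian group with invariant totally real plane the set of negative
lines of the real subspace `V` of `ℂ³`: `V` has real dimension three, is totally real,
`herm` takes real values on it and takes a negative value; the elements of `F` have determinant
one, preserve `herm` and map `V` to itself; and there is a compact set `K` of negative vectors of
`V` such that every negative vector of `V` is mapped into `ℝˣ K` by an element of `F`. -/
def IsCocompactFuchsian (V : Submodule ℝ (Fin 3 → ℂ)) (F : Subgroup (GL (Fin 3) ℂ)) : Prop :=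
  Module.finrank ℝ V = 3 ∧ (∀ x ∈ V, Complex.I • x ∈ V → x = 0) ∧
  (∀ x ∈ V, ∀ y ∈ V, (herm x y).im = 0) ∧ (∃ x ∈ V, (herm x x).re < 0) ∧
  (∀ g ∈ F, g.val.det = 1 ∧ (∀ x y, herm (g.val *ᵥ x) (g.val *ᵥ y) = herm x y) ∧
    ∀ x ∈ V, g.val *ᵥ x ∈ V) ∧
  ∃ K : Set (Fin 3 → ℂ), IsCompact K ∧ (∀ x ∈ K, x ∈ V ∧ (herm x x).re < 0) ∧
    ∀ x ∈ V, (herm x x).re < 0 → ∃ g ∈ F, ∃ c : ℝ, c ≠ 0 ∧ (c : ℂ) • (g.val *ᵥ x) ∈ K

open Pool.Agent.H.MP_c41128_gt in
lemma herm_eq (x y : Fin 3 → ℂ) : herm x y = hF ((1 - phi : ℝ) : ℂ) x y := by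
  have : ((1 - Real.sqrt 5) / 2 : ℝ) = 1 - phi := by unfold phi; ring
  simp only [herm, hF, this]

open Pool.Agent.H.MP_c41128_gt in
lemma ev_phi : ev ⟨0, 0, -1, -1⟩ = (gold : ℂ) := by
  rw [ev_apply]
  have h := zeta_add2
  have h2 : (phi : ℂ) = (gold : ℂ) := rfl
  rw [h2] at h
  push_cast
  linear_combination -h

open Pool.Agent.H.MP_c41128_gt in
lemma root_eq (i : Fin 4) : root i = ev ∘ rootZ i := by
  have h1 := ev_phi
  have h2 : ev ⟨1, 0, -1, -1⟩ = (gold : ℂ) ^ 2 := by
    have h3 : (⟨1, 0, -1, -1⟩ : Z5 ℤ) = ⟨0, 0, -1, -1⟩ ^ 2 := by decide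
    rw [h3, map_pow, h1]
  fin_cases i <;> funext j <;> fin_cases j <;> simp [root, rootZ, h1, h2]

open Pool.Agent.H.MP_c41128_gt in
lemma mult_eq : (1 - Complex.exp (Real.pi * Complex.I / 5)) = ev ⟨1, 0, 0, 1⟩ := by
  rw [ev_apply]
  have h : zeta ^ 3 = - Complex.exp (Real.pi * Complex.I / 5) := by
    rw [zeta, ← Complex.exp_nat_mul]
    have h2 : ((3 : ℕ) : ℂ) * (2 * Real.pi * Complex.I / 5) =
        Real.pi * Complex.I / 5 + Real.pi * Complex.I := by push_cast; ring
    rw [h2, Complex.exp_add, Complex.exp_pi_mul_I]; ring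
  rw [h]; push_cast; ring

open Pool.Agent.H.MP_c41128_gt in
/-- the image of an integral matrix in `GL₃(ℂ)` -/
noncomputable def gmap : GL (Fin 3) (Z5 ℤ) →* GL (Fin 3) ℂ :=
  Matrix.GeneralLinearGroup.map ev

open Pool.Agent.H.MP_c41128_gt in
lemma isHalfTwist_gmap (i : Fin 4) : IsHalfTwist i (gmap (RZ i)) := by
  intro x
  rw [mult_eq, root_eq]
  have hs : ∀ z, star (ev z) = ev (star z) := fun z => (ev_star z).symm
  have hval : ∀ j k, (gmap (RZ i)).val j k = ev ((RZ i).val j k) := fun j k => rfl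
  have heta : (((1 - Real.sqrt 5) / 2 : ℝ) : ℂ) = ev etaZ := by
    rw [ev_eta]; congr 1; unfold phi; ring
  funext j
  simp only [Matrix.mulVec, dotProduct, Fin.sum_univ_three, hval, RZ_entries, Pi.sub_apply,
    Pi.smul_apply, smul_eq_mul, herm, heta, Function.comp_apply, hs, map_sub, map_mul]
  fin_cases j <;> simp <;> ring

open Pool.Agent.H.MP_c41128_gt in
lemma eq_of_isHalfTwist {i : Fin 4} {g : GL (Fin 3) ℂ} (h : IsHalfTwist i g) :
    g = gmap (RZ i) := by
  apply Units.ext
  have h2 := isHalfTwist_gmap i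
  apply Matrix.mulVec_injective
  funext x
  rw [h x, h2 x]

open Pool.Agent.H.MP_c41128_gt in
lemma Delta5_le : Delta5 ≤ DZ.map gmap := by
  rw [Delta5, Subgroup.closure_le]
  rintro g ⟨i, hi⟩
  exact ⟨RZ i, RZ_mem i, (eq_of_isHalfTwist hi).symm⟩

open Pool.Agent.H.MP_c41128_gt in
lemma le_Delta5 : DZ.map gmap ≤ Delta5 := by
  rw [DZ, MonoidHom.map_closure, Subgroup.closure_le]
  rintro _ ⟨_, ⟨i, rfl⟩, rfl⟩
  exact Subgroup.subset_closure ⟨i, isHalfTwist_gmap i⟩

open Pool.Agent.H.MP_c41128_gt in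
lemma le_PureDelta5 : NZ.map gmap ≤ PureDelta5 := by
  rw [NZ, MonoidHom.map_closure, Subgroup.closure_le]
  rintro _ ⟨_, ⟨g, hg, i, rfl⟩, rfl⟩
  refine Subgroup.subset_closure ⟨gmap g, le_Delta5 ⟨g, hg, rfl⟩, i, gmap (RZ i),
    isHalfTwist_gmap i, ?_⟩
  simp only [map_mul, map_pow, map_inv]

open Pool.Agent.H.MP_c41128_gt in
/-- The stabiliser of the plane in `PureDelta5`, with determinant one. -/
def FF : Subgroup (GL (Fin 3) ℂ) where
  carrier := {g | g ∈ PureDelta5 ∧ (g.val.det = 1 ∧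
    ∀ x y, herm (g.val *ᵥ x) (g.val *ᵥ y) = herm x y) ∧ (∀ x ∈ VV, g.val *ᵥ x ∈ VV) ∧
    ∀ x ∈ VV, (g⁻¹).val *ᵥ x ∈ VV}
  one_mem' := ⟨PureDelta5.one_mem, by simp, by simp, by simp⟩
  mul_mem' := by
    rintro g k ⟨hg1, hg2, hg3, hg4⟩ ⟨hk1, hk2, hk3, hk4⟩
    refine ⟨PureDelta5.mul_mem hg1 hk1, ⟨?_, ?_⟩, ?_, ?_⟩
    · rw [Units.val_mul, Matrix.det_mul, hg2.1, hk2.1, one_mul]
    · intro x y
      rw [Units.val_mul, ← Matrix.mulVec_mulVec, ← Matrix.mulVec_mulVec, hg2.2, hk2.2]
    · intro x hx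
      rw [Units.val_mul, ← Matrix.mulVec_mulVec]
      exact hg3 _ (hk3 _ hx)
    · intro x hx
      rw [_root_.mul_inv_rev, Units.val_mul, ← Matrix.mulVec_mulVec]
      exact hk4 _ (hg4 _ hx)
  inv_mem' := by
    rintro g ⟨hg1, hg2, hg3, hg4⟩
    refine ⟨PureDelta5.inv_mem hg1, ⟨?_, ?_⟩, hg4, by rwa [inv_inv]⟩
    · have h1 : (g⁻¹).val * g.val = 1 := by rw [← Units.val_mul, inv_mul_cancel, Units.val_one]
      have h2 := congrArg Matrix.det h1
      rw [Matrix.det_mul, hg2.1, mul_one, Matrix.det_one] at h2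
      exact h2
    · intro x y
      have h := hg2.2 ((g⁻¹).val *ᵥ x) ((g⁻¹).val *ᵥ y)
      have h1 : g.val * (g⁻¹).val = 1 := by rw [← Units.val_mul, mul_inv_cancel, Units.val_one]
      rw [Matrix.mulVec_mulVec, Matrix.mulVec_mulVec, h1, Matrix.one_mulVec,
        Matrix.one_mulVec] at h
      exact h.symm

open Pool.Agent.H.MP_c41128_gt in
lemma rho_mem_FF {B : GL (Fin 3) (Z5 ℤ)} (hB : B ∈ W) (hn : ∃ n ∈ NZ, rho B = gmap n)
    (hd : B.val.det = 1) : rho B ∈ FF := by
  have hBi := W.inv_mem hB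
  obtain ⟨n, hn, h⟩ := hn
  refine ⟨?_, ⟨det_rho' hd, ?_⟩, ?_, ?_⟩
  · rw [h]; exact le_PureDelta5 ⟨n, hn, rfl⟩
  · intro x y
    rw [herm_eq, herm_eq, ← ev_eta, rho_hF hB]
  · rintro x ⟨t, rfl⟩
    change (rho B).val *ᵥ emb t ∈ VV
    rw [← emb_act hB]; exact ⟨_, rfl⟩
  · rintro x ⟨t, rfl⟩
    change ((rho B)⁻¹).val *ᵥ emb t ∈ VV
    rw [← map_inv, ← emb_act hBi]; exact ⟨_, rfl⟩

open Pool.Agent.H.MP_c41128_gt in
lemma mem_Zzeta {z : ℂ} (h : z ∈ Zzeta) : ∃ a : Z5 ℤ, ev a = z := by
  have : Zzeta ≤ ev.range := by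
    rw [Zzeta, Subring.closure_le]
    rintro _ rfl
    refine ⟨⟨0, 1, 0, 0⟩, ?_⟩
    rw [ev_apply]; simp [zeta]
  exact this h

/-- There is a cocompact `ℝ`-Fuchsian subgroup `F` of Thurston's lattice `Δ₅` (even of the
sublattice for labelled cone points) whose invariant plane is disjoint from the preimage of the
collision divisor `D`, and even from every complex geodesic orthogonal to a vector of norm one in
`ℤ[ζ]³`. -/
theorem result : ∃ (V : Submodule ℝ (Fin 3 → ℂ)) (F : Subgroup (GL (Fin 3) ℂ)),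
    F ≤ PureDelta5 ∧ IsCocompactFuchsian V F ∧
    ∀ x ∈ V, (herm x x).re < 0 →
      (∀ g ∈ Delta5, ∀ i, herm x (g.val *ᵥ root i) ≠ 0) ∧
      (∀ v : Fin 3 → ℂ, (∀ j, v j ∈ Zzeta) → herm v v = 1 → herm x v ≠ 0) := by
  open Pool.Agent.H.MP_c41128_gt in
  refine ⟨VV, FF, fun g hg => hg.1, ⟨finrank_VV, fun x h1 h2 => VV_totally_real h1 h2, ?_, ?_, ?_,
    KK2, isCompact_KK2, ?_, ?_⟩, ?_⟩
  · rintro x ⟨s, rfl⟩ y ⟨t, rfl⟩
    change (herm (emb s) (emb t)).im = 0
    rw [herm_eq, hF_emb, Complex.ofReal_im]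
  · refine ⟨emb x0R, ⟨_, rfl⟩, ?_⟩
    rw [herm_eq, hF_emb, Complex.ofReal_re]
    exact Bf_x0
  · rintro g ⟨hg1, hg2, hg3, -⟩
    exact ⟨hg2.1, hg2.2, hg3⟩
  · intro x hx
    rw [herm_eq]; exact KK2_sub hx
  · intro x hx hneg
    rw [herm_eq] at hneg
    obtain ⟨B, hB, hn, hd, c, hc, hcK⟩ := cocompact2 hx hneg
    exact ⟨rho B, rho_mem_FF hB hn hd, c, hc, hcK⟩
  · intro x hx hneg
    rw [herm_eq] at hneg
    refine ⟨?_, ?_⟩
    · rintro g hg i
      obtain ⟨k, hk, rfl⟩ := Delta5_le hg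
      rw [herm_eq]
      have h1 : (gmap k).val *ᵥ root i = ev ∘ (k.val *ᵥ rootZ i) := by
        rw [root_eq, ev_mulVec]; rfl
      rw [h1]
      refine misses hx hneg ?_
      rw [DZ_hF hk, rootZ_norm]
    · intro v hv1 hv2
      choose a ha using fun i => mem_Zzeta (hv1 i)
      have hv : v = ev ∘ a := by funext i; exact (ha i).symm
      rw [herm_eq] at hv2 ⊢
      subst hv
      refine misses hx hneg ?_
      apply ev_injective
      rw [← map_hF ev_star, ev_eta, hv2, map_one]

end Pool.Agent.Results.MP_c41128_gt.ThurstonFuchsian
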